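import Pool.Agent.Q39.PL.Defs
import Mathlib.Tactic

/-!
# MP_cadcf7_co: the coefficient 5 of `f_{5,5,7}` is optimal

An explicit plane triangulation with 114 vertices (of the degrees 5, 6, 7, 8) with
`f_{5,5,5} = f_{5,5,6} = 0`, `f_{5,5,7} = 16` and `f_{5,6,6} = 16`: equality in
`18 f_{5,5,5} + 9 f_{5,5,6} + 5 f_{5,5,7} + 4 f_{5,6,6} >= 144`.

The graph: a vertex of degree 8 is surrounded by a ring of eight vertices of degree 5, then by a
ring of eight vertices of degree 7, then by three more rings (degrees 5 and 6; 7; 5) and by a ring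
of 16 vertices of degree 6; the same on the other side of this last ring.

The plane graphs (rotation systems with Euler's formula) and the numbers `f_{i,j,k}` are defined in
`Pool.Agent.Q39.PL.Defs`.
-/

set_option autoImplicit false
set_option maxRecDepth 20000

namespace Pool.Agent.Results.MP_cadcf7_co.FiveIsOptimal

open Pool.Agent.Q39.PL

/-- The neighbours of the vertices, in cyclic order. -/
def tab : List (List ℕ) :=
  [[1, 2, 3, 4, 5, 6, 7, 8], [16, 9, 2, 0, 8], [9, 10, 3, 0, 1], [10, 11, 4, 0, 2],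
   [11, 12, 5, 0, 3], [12, 13, 6, 0, 4], [13, 14, 7, 0, 5], [14, 15, 8, 0, 6], [15, 16, 1, 0, 7],
   [25, 17, 10, 2, 1, 16, 24], [26, 18, 11, 3, 2, 9, 17], [27, 19, 12, 4, 3, 10, 18],
   [28, 20, 13, 5, 4, 11, 19], [29, 21, 14, 6, 5, 12, 20], [30, 22, 15, 7, 6, 13, 21],
   [31, 23, 16, 8, 7, 14, 22], [32, 24, 9, 1, 8, 15, 23], [33, 26, 10, 9, 25],
   [34, 27, 11, 10, 26], [35, 28, 12, 11, 27], [36, 29, 13, 12, 28], [37, 30, 14, 13, 29],
   [38, 31, 15, 14, 30], [39, 32, 16, 15, 31], [40, 25, 9, 16, 32], [41, 33, 17, 9, 24, 40],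
   [42, 34, 18, 10, 17, 33], [43, 35, 19, 11, 18, 34], [44, 36, 20, 12, 19, 35],
   [45, 37, 21, 13, 20, 36], [46, 38, 22, 14, 21, 37], [47, 39, 23, 15, 22, 38],
   [48, 40, 24, 16, 23, 39], [50, 51, 42, 26, 17, 25, 41], [52, 53, 43, 27, 18, 26, 42],
   [54, 55, 44, 28, 19, 27, 43], [56, 57, 45, 29, 20, 28, 44], [58, 59, 46, 30, 21, 29, 45],
   [60, 61, 47, 31, 22, 30, 46], [62, 63, 48, 32, 23, 31, 47], [64, 49, 41, 25, 24, 32, 48],
   [49, 50, 33, 25, 40], [51, 52, 34, 26, 33], [53, 54, 35, 27, 34], [55, 56, 36, 28, 35],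
   [57, 58, 37, 29, 36], [59, 60, 38, 30, 37], [61, 62, 39, 31, 38], [63, 64, 40, 32, 39],
   [80, 65, 50, 41, 40, 64], [65, 73, 51, 33, 41, 49], [73, 66, 52, 42, 33, 50],
   [66, 74, 53, 34, 42, 51], [74, 67, 54, 43, 34, 52], [67, 75, 55, 35, 43, 53],
   [75, 68, 56, 44, 35, 54], [68, 76, 57, 36, 44, 55], [76, 69, 58, 45, 36, 56],
   [69, 77, 59, 37, 45, 57], [77, 70, 60, 46, 37, 58], [70, 78, 61, 38, 46, 59],
   [78, 71, 62, 47, 38, 60], [71, 79, 63, 39, 47, 61], [79, 72, 64, 48, 39, 62],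
   [72, 80, 49, 40, 48, 63], [80, 81, 73, 50, 49], [73, 82, 74, 52, 51], [74, 83, 75, 54, 53],
   [75, 84, 76, 56, 55], [76, 85, 77, 58, 57], [77, 86, 78, 60, 59], [78, 87, 79, 62, 61],
   [79, 88, 80, 64, 63], [65, 81, 89, 82, 66, 51, 50], [66, 82, 90, 83, 67, 53, 52],
   [67, 83, 91, 84, 68, 55, 54], [68, 84, 92, 85, 69, 57, 56], [69, 85, 93, 86, 70, 59, 58],
   [70, 86, 94, 87, 71, 61, 60], [71, 87, 95, 88, 72, 63, 62], [72, 88, 96, 81, 65, 49, 64],
   [80, 96, 97, 89, 73, 65], [73, 89, 98, 90, 74, 66], [74, 90, 99, 91, 75, 67],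
   [75, 91, 100, 92, 76, 68], [76, 92, 101, 93, 77, 69], [77, 93, 102, 94, 78, 70],
   [78, 94, 103, 95, 79, 71], [79, 95, 104, 96, 80, 72], [81, 97, 98, 82, 73],
   [82, 98, 99, 83, 74], [83, 99, 100, 84, 75], [84, 100, 101, 85, 76], [85, 101, 102, 86, 77],
   [86, 102, 103, 87, 78], [87, 103, 104, 88, 79], [88, 104, 97, 81, 80],
   [96, 104, 105, 106, 98, 89, 81], [89, 97, 106, 107, 99, 90, 82],
   [90, 98, 107, 108, 100, 91, 83], [91, 99, 108, 109, 101, 92, 84],
   [92, 100, 109, 110, 102, 93, 85], [93, 101, 110, 111, 103, 94, 86],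
   [94, 102, 111, 112, 104, 95, 87], [95, 103, 112, 105, 97, 96, 88], [112, 113, 106, 97, 104],
   [105, 113, 107, 98, 97], [106, 113, 108, 99, 98], [107, 113, 109, 100, 99],
   [108, 113, 110, 101, 100], [109, 113, 111, 102, 101], [110, 113, 112, 103, 102],
   [111, 113, 105, 104, 103], [112, 111, 110, 109, 108, 107, 106, 105]]

/-- The list of the neighbours of `u`. -/
def nb (u : ℕ) : List ℕ := tab.getD u []

/-- Adjacency. -/
def adjB (u v : ℕ) : Bool := (nb u).contains v

/-- The neighbour of `u` after `v`. -/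
def nx (u v : ℕ) : ℕ := (nb u).getD (((nb u).idxOf v + 1) % (nb u).length) 0

/-- The neighbour of `u` before `v`. -/
def pv (u v : ℕ) : ℕ := (nb u).getD (((nb u).idxOf v + ((nb u).length - 1)) % (nb u).length) 0

/-- All checks for a pair of neighbours. -/
def chk (u v : ℕ) : Bool :=
  decide (v < 114) && adjB v u && (u != v) && decide (nx u v < 114) && adjB u (nx u v) &&
    decide (pv u v < 114) && adjB u (pv u v) && (pv u (nx u v) == v) && (nx u (pv u v) == v) &&
    (nx (nx v u) v == u) && (nx u (nx v u) == v)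

theorem chk_all : ((List.range 114).all fun u => (nb u).all fun v => chk u v) = true := by
  decide +kernel

theorem trans_all : ((List.range 114).all fun u => (nb u).all fun v => (nb u).all fun w =>
    (List.range 8).any fun k => ((nx u)^[k] v == w)) = true := by
  decide +kernel

theorem par_all : ((List.range 114).all fun u => (u == 0) || (nb u).any fun v => decide (v < u)) =
    true := by
  decide +kernel

theorem facts {u v : Fin 114} (h : adjB u v = true) : adjB v u = true ∧ u ≠ v ∧ nx u v < 114 ∧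
    adjB u (nx u v) = true ∧ pv u v < 114 ∧ adjB u (pv u v) = true ∧ pv u (nx u v) = v ∧
    nx u (pv u v) = v ∧ nx (nx v u) v = u ∧ nx u (nx v u) = v := by
  have h1 := List.all_eq_true.1 chk_all u (List.mem_range.2 u.2)
  have h2 := List.all_eq_true.1 h1 v (by simpa [adjB] using h)
  simp only [chk, Bool.and_eq_true, decide_eq_true_eq, bne_iff_ne, beq_iff_eq] at h2
  obtain ⟨⟨⟨⟨⟨⟨⟨⟨⟨⟨_, a2⟩, a3⟩, a4⟩, a5⟩, a6⟩, a7⟩, a8⟩, a9⟩, a10⟩, a11⟩ := h2
  exact ⟨a2, fun e => a3 (by rw [e]), a4, a5, a6, a7, a8, a9, a10, a11⟩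

/-- The graph. -/
def G : SimpleGraph (Fin 114) where
  Adj u v := adjB u v = true
  symm := ⟨fun _ _ h => (facts h).1⟩
  loopless := ⟨fun _ h => (facts h).2.1 rfl⟩

instance : DecidableRel G.Adj := fun u v => inferInstanceAs (Decidable (adjB u v = true))

/-- The rotation. -/
def rot : Equiv.Perm G.Dart where
  toFun d := ⟨(d.fst, ⟨nx d.fst d.snd, (facts d.adj).2.2.1⟩), (facts d.adj).2.2.2.1⟩
  invFun d := ⟨(d.fst, ⟨pv d.fst d.snd, (facts d.adj).2.2.2.2.1⟩), (facts d.adj).2.2.2.2.2.1⟩
  left_inv d := by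
    apply SimpleGraph.Dart.ext
    refine Prod.ext rfl (Fin.ext ?_)
    exact (facts d.adj).2.2.2.2.2.2.1
  right_inv d := by
    apply SimpleGraph.Dart.ext
    refine Prod.ext rfl (Fin.ext ?_)
    exact (facts d.adj).2.2.2.2.2.2.2.1

theorem rot_pow (d : G.Dart) (k : ℕ) : ((rot ^ k) d).fst = d.fst ∧
    (((rot ^ k) d).snd : ℕ) = (nx d.fst)^[k] d.snd := by
  induction k with
  | zero => exact ⟨rfl, rfl⟩
  | succ k ih =>
    rw [pow_succ', Equiv.Perm.mul_apply, Function.iterate_succ_apply']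
    refine ⟨ih.1, ?_⟩
    change nx ((rot ^ k) d).fst ((rot ^ k) d).snd = _
    rw [ih.1, ih.2]

theorem rot_trans (d e : G.Dart) (h : d.fst = e.fst) : rot.SameCycle d e := by
  have h1 := List.all_eq_true.1 trans_all d.fst (List.mem_range.2 d.fst.2)
  have hd : adjB d.fst d.snd = true := d.adj
  have he : adjB e.fst e.snd = true := e.adj
  rw [← h] at he
  have h2 := List.all_eq_true.1 h1 d.snd (by simpa only [adjB, List.contains_iff_mem] using hd)
  have h3 := List.all_eq_true.1 h2 e.snd (by simpa only [adjB, List.contains_iff_mem] using he)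
  rw [List.any_eq_true] at h3
  obtain ⟨k, _, hk⟩ := h3
  rw [beq_iff_eq] at hk
  refine ⟨k, ?_⟩
  rw [zpow_natCast]
  obtain ⟨h4, h5⟩ := rot_pow d k
  apply SimpleGraph.Dart.ext
  refine Prod.ext ?_ (Fin.ext ?_)
  · exact h4.trans h
  · exact h5.trans hk

theorem conn : G.Connected := by
  have key : ∀ n : ℕ, ∀ u : Fin 114, u.1 = n → G.Reachable u 0 := by
    intro n
    induction n using Nat.strong_induction_on with
    | _ n ih =>
      intro u hu
      by_cases h0 : u = 0
      · rw [h0]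
      · have h1 := List.all_eq_true.1 par_all u (List.mem_range.2 u.2)
        rw [Bool.or_eq_true, beq_iff_eq, List.any_eq_true] at h1
        rcases h1 with h1 | ⟨v, hv, hvu⟩
        · exact absurd (Fin.ext h1) h0
        · rw [decide_eq_true_eq] at hvu
          have hv2 : v < 114 := hvu.trans u.2
          have hadj : G.Adj u ⟨v, hv2⟩ := by
            change adjB u v = true
            simpa [adjB] using hv
          exact hadj.reachable.trans (ih v (by omega) ⟨v, hv2⟩ rfl)
  rw [SimpleGraph.connected_iff_exists_forall_reachable]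
  exact ⟨0, fun u => (key u.1 u rfl).symm⟩

/-! ### Orbits of size three -/

theorem sameCycle_iff {D : Type} (φ : Equiv.Perm D) (h3 : ∀ d, φ (φ (φ d)) = d) (d e : D) :
    φ.SameCycle d e ↔ e = d ∨ e = φ d ∨ e = φ (φ d) := by
  constructor
  · rintro ⟨i, rfl⟩
    have h : φ ^ (3 : ℤ) = 1 := by
      ext x
      change (φ ^ (3 : ℤ)) x = x
      have : φ ^ (3 : ℤ) = φ * φ * φ := by
        rw [show (3 : ℤ) = ((3 : ℕ) : ℤ) from rfl, zpow_natCast, pow_succ, pow_two]
      rw [this]
      exact h3 x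
    have h1 : φ ^ i = φ ^ (i % 3) := by
      conv_lhs => rw [← Int.emod_add_mul_ediv i 3, zpow_add, zpow_mul, h, one_zpow, mul_one]
    rw [h1]
    have h2 : i % 3 = 0 ∨ i % 3 = 1 ∨ i % 3 = 2 := by omega
    rcases h2 with h2 | h2 | h2
    · left; rw [h2]; rfl
    · right; left; rw [h2, zpow_one]
    · right; right; rw [h2, show (2 : ℤ) = ((2 : ℕ) : ℤ) from rfl, zpow_natCast, pow_two]; rfl
  · rintro (rfl | rfl | rfl)
    · exact Equiv.Perm.SameCycle.refl _ _
    · exact ⟨1, by rw [zpow_one]⟩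
    · exact ⟨2, by rw [show (2 : ℤ) = ((2 : ℕ) : ℤ) from rfl, zpow_natCast, pow_two]; rfl⟩

theorem three_mul {D : Type} [Fintype D] (φ : Equiv.Perm D) (h3 : ∀ d, φ (φ (φ d)) = d)
    (h1 : ∀ d, φ d ≠ d) (S : Set D) (hS : ∀ d ∈ S, φ d ∈ S) :
    3 * ((fun d => (Quotient.mk (Equiv.Perm.SameCycle.setoid φ) d)) '' S).ncard = S.ncard := by
  classical
  set q : D → Quotient (Equiv.Perm.SameCycle.setoid φ) := fun d => Quotient.mk _ d with hq
  have e1 : S.ncard = S.toFinset.card := Set.ncard_eq_toFinset_card' S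
  have e2 : (q '' S).ncard = (S.toFinset.image q).card := by
    rw [← Set.ncard_coe_finset]
    congr 1
    ext x
    simp
  rw [e1, e2, Finset.card_eq_sum_card_image q S.toFinset]
  rw [Finset.sum_congr rfl (g := fun _ => 3), Finset.sum_const, smul_eq_mul, mul_comm]
  intro b hb
  rw [Finset.mem_image] at hb
  obtain ⟨d, hd, rfl⟩ := hb
  rw [Set.mem_toFinset] at hd
  have h2 : φ (φ d) ≠ d := by
    intro h
    have := h3 d
    rw [h] at this
    exact h1 d this
  have : (S.toFinset.filter fun a => q a = q d) = {d, φ d, φ (φ d)} := by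
    ext a
    rw [Finset.mem_filter, Set.mem_toFinset, Finset.mem_insert, Finset.mem_insert,
      Finset.mem_singleton]
    have h5 : q a = q d ↔ φ.SameCycle d a := by
      rw [hq]
      change Quotient.mk (Equiv.Perm.SameCycle.setoid φ) a = Quotient.mk _ d ↔ _
      rw [Quotient.eq]
      exact ⟨fun h => Equiv.Perm.SameCycle.symm h, fun h => Equiv.Perm.SameCycle.symm h⟩
    rw [h5, sameCycle_iff φ h3]
    constructor
    · exact fun h => h.2
    · rintro (rfl | rfl | rfl)
      · exact ⟨hd, Or.inl rfl⟩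
      · exact ⟨hS _ hd, Or.inr (Or.inl rfl)⟩
      · exact ⟨hS _ (hS _ hd), Or.inr (Or.inr rfl)⟩
  rw [this, Finset.card_insert_of_notMem, Finset.card_insert_of_notMem, Finset.card_singleton]
  · rw [Finset.mem_singleton]
    exact fun h => h1 _ h.symm
  · rw [Finset.mem_insert, Finset.mem_singleton]
    rintro (h | h)
    · exact h1 d h.symm
    · exact h2 h.symm

theorem next_fst (d : G.Dart) : (next G rot d).fst = d.snd := rfl

theorem next_snd (d : G.Dart) : ((next G rot d).snd : ℕ) = nx d.snd d.fst := rfl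

theorem next3 (d : G.Dart) : next G rot (next G rot (next G rot d)) = d := by
  have h := (facts d.adj).2.2.2.2.2.2.2.2
  have e1 : ((next G rot (next G rot d)).snd : ℕ) = d.fst := by
    rw [next_snd, next_snd, next_fst]
    exact h.1
  apply SimpleGraph.Dart.ext
  refine Prod.ext ?_ (Fin.ext ?_)
  · exact Fin.ext e1
  · rw [next_snd, e1, next_fst, next_snd]
    exact h.2

theorem next1 (d : G.Dart) : next G rot d ≠ d := by
  intro h
  have h1 : (next G rot d).fst = d.fst := by rw [h]
  rw [next_fst] at h1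
  exact d.adj.ne h1.symm

/-! ### The counts -/

theorem deg_all : ∀ v : Fin 114,
    (Finset.univ.filter fun w : Fin 114 => adjB v w = true).card = (nb v).length := by
  decide +kernel

theorem deg_eq (v : Fin 114) : deg G v = (nb v).length := by
  unfold deg
  rw [← deg_all v, ← Set.ncard_coe_finset]
  congr 1
  ext w
  simp [G]

theorem card_edges : G.edgeSet.ncard = 336 := by
  have h1 := G.sum_degrees_eq_twice_card_edges
  have h2 : ∀ v, G.degree v = (nb v).length := by
    intro v
    rw [← deg_all v]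
    unfold SimpleGraph.degree
    congr 1
    ext w
    simp [G]
  rw [Finset.sum_congr rfl (fun v _ => h2 v)] at h1
  have h3 : ∑ v : Fin 114, (nb v).length = 672 := by decide +kernel
  rw [h3] at h1
  rw [Set.ncard_eq_toFinset_card']
  change G.edgeFinset.card = 336
  omega

theorem card_darts : Nat.card G.Dart = 672 := by
  rw [Nat.card_eq_fintype_card, G.dart_card_eq_twice_card_edges]
  have h := card_edges
  rw [Set.ncard_eq_toFinset_card'] at h
  change G.edgeFinset.card = 336 at h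
  omega

theorem card_faces : Nat.card (Face G rot) = 224 := by
  have h := three_mul (next G rot) next3 next1 Set.univ (fun _ _ => trivial)
  rw [Set.image_univ_of_surjective Quotient.mk_surjective, Set.ncard_univ, Set.ncard_univ,
    card_darts] at h
  change 3 * Nat.card (Face G rot) = 672 at h
  omega

/-- The plane graph. -/
def P : PlaneGraph (Fin 114) where
  G := G
  rot := rot
  rot_fst _ := rfl
  rot_trans := rot_trans
  conn := conn
  euler := by rw [card_faces, card_edges, Nat.card_eq_fintype_card, Fintype.card_fin]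

/-- The pairs of adjacent vertices on triangles of the given type. -/
def cntPairs (i j k : ℕ) : ℕ :=
  (Finset.univ.filter fun p : Fin 114 × Fin 114 => adjB p.1 p.2 = true ∧
    ({(nb p.1).length, (nb p.2).length, (nb (nx p.2 p.1)).length} : Multiset ℕ) = {i, j, k}).card

theorem three_f (i j k : ℕ) : 3 * P.f i j k = cntPairs i j k := by
  have h := three_mul (next G rot) next3 next1 (P.triDarts i j k) (by
    rintro d ⟨h1, h2⟩
    refine ⟨?_, ?_⟩
    · change next G rot (next G rot (next G rot (next G rot d))) = next G rot d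
      rw [next3]
    · change ({deg G (next G rot d).fst, deg G (next G rot (next G rot d)).fst,
        deg G (next G rot (next G rot (next G rot d))).fst} : Multiset ℕ) = {i, j, k}
      rw [next3, ← h2]
      change _ = ({deg G d.fst, deg G (next G rot d).fst,
        deg G (next G rot (next G rot d)).fst} : Multiset ℕ)
      generalize deg G d.fst = a
      generalize deg G (next G rot d).fst = b
      generalize deg G (next G rot (next G rot d)).fst = c
      change (b ::ₘ c ::ₘ a ::ₘ 0) = (a ::ₘ b ::ₘ c ::ₘ 0)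
      rw [Multiset.cons_swap c a, Multiset.cons_swap b a])
  change 3 * P.f i j k = _ at h
  rw [h]
  unfold cntPairs
  rw [← Set.ncard_coe_finset]
  rw [← Set.ncard_image_of_injective (P.triDarts i j k)
    (f := fun d : G.Dart => d.toProd) (fun a b hab => SimpleGraph.Dart.ext _ _ hab)]
  congr 1
  ext p
  simp only [Set.mem_image, Finset.coe_filter, Finset.mem_univ, true_and, Set.mem_ofPred_eq]
  constructor
  · rintro ⟨d, ⟨_, h2⟩, rfl⟩
    refine ⟨d.adj, ?_⟩
    change ({deg G d.fst, deg G d.snd, deg G (next G rot (next G rot d)).fst} : Multiset ℕ) = _ at h2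
    rw [deg_eq, deg_eq, deg_eq] at h2
    exact h2
  · rintro ⟨h1, h2⟩
    refine ⟨⟨p, h1⟩, ⟨next3 _, ?_⟩, rfl⟩
    change ({deg G p.1, deg G p.2, deg G (next G rot (next G rot ⟨p, h1⟩)).fst} : Multiset ℕ) = _
    rw [deg_eq, deg_eq, deg_eq]
    exact h2

theorem cnt555 : cntPairs 5 5 5 = 0 := by decide +kernel
theorem cnt556 : cntPairs 5 5 6 = 0 := by decide +kernel
theorem cnt557 : cntPairs 5 5 7 = 48 := by decide +kernel
theorem cnt566 : cntPairs 5 6 6 = 48 := by decide +kernel

theorem f555 : P.f 5 5 5 = 0 := by have := three_f 5 5 5; rw [cnt555] at this; omega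
theorem f556 : P.f 5 5 6 = 0 := by have := three_f 5 5 6; rw [cnt556] at this; omega
theorem f557 : P.f 5 5 7 = 16 := by have := three_f 5 5 7; rw [cnt557] at this; omega
theorem f566 : P.f 5 6 6 = 16 := by have := three_f 5 6 6; rw [cnt566] at this; omega

theorem min_deg : (∀ v, 5 ≤ deg P.G v) ∧ ∃ v, deg P.G v = 5 := by
  have h : ∀ v : Fin 114, 5 ≤ (nb v).length := by decide +kernel
  refine ⟨fun v => ?_, ⟨1, ?_⟩⟩
  · change 5 ≤ deg G v
    rw [deg_eq]
    exact h v
  · change deg G 1 = 5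
    rw [deg_eq]
    decide +kernel

/-- **The coefficient 5 is optimal.** There is a connected plane graph with minimum degree `5` and
`f_{5,5,5} = f_{5,5,6} = 0`, `f_{5,5,7} = f_{5,6,6} = 16`. Hence, if
`18 f_{5,5,5} + 9 f_{5,5,6} + c f_{5,5,7} + 4 f_{5,6,6} >= 144` holds for all (connected) plane
graphs of minimum degree `5`, then `5 <= c`. -/
theorem result :
    (∃ (n : ℕ) (P : PlaneGraph (Fin n)), (∀ v, 5 ≤ deg P.G v) ∧ (∃ v, deg P.G v = 5) ∧
      P.f 5 5 5 = 0 ∧ P.f 5 5 6 = 0 ∧ P.f 5 5 7 = 16 ∧ P.f 5 6 6 = 16) ∧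
    ∀ c : ℝ, (∀ (n : ℕ) (P : PlaneGraph (Fin n)), (∀ v, 5 ≤ deg P.G v) →
      (∃ v, deg P.G v = 5) → (144 : ℝ) ≤ 18 * P.f 5 5 5 + 9 * P.f 5 5 6 + c * P.f 5 5 7 +
        4 * P.f 5 6 6) → 5 ≤ c := by
  refine ⟨⟨114, P, min_deg.1, min_deg.2, f555, f556, f557, f566⟩, fun c hc => ?_⟩
  have h := hc 114 P min_deg.1 min_deg.2
  rw [f555, f556, f557, f566] at h
  norm_num at h
  linarith

end Pool.Agent.Results.MP_cadcf7_co.FiveIsOptimal
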